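import Pool.Agent.Rohlin.Iso.Counter
import Pool.Agent.Rohlin.Octic.O15.Main
import Pool.Agent.Rohlin.Octic.O13.Main

/-!
# Rohlin's maximality conjecture is false in degree `8`

The real scheme `⟨15 ⊔ 1⟨4⟩⟩` of degree `8` is of type I, and it is obtained from the real scheme
`⟨13 ⊔ 1⟨2⟩ ⊔ 1⟨4⟩⟩` of degree `8` by deleting the oval around exactly two ovals.
-/

set_option autoImplicit false

namespace Pool.Agent.Results.MP_dec4ff_ag.TypeOneNotMaximal

open Pool.Agent.Rohlin

/-- there are real octics `A` and `A'` with the real schemes `15 ⊔ 1⟨4⟩` and `13 ⊔ 1⟨2⟩ ⊔ 1⟨4⟩`,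
such that every real octic with the real scheme of `A` is dividing and the real scheme of `A` is a
proper subscheme of the real scheme of `A'`; so the conjecture is false -/
theorem result : (∃ A A' : RealCurve 8, HasScheme 8 A.real S15 ∧ HasScheme 8 A'.real S13 ∧
    (∀ B : RealCurve 8, Isotopic A.real B.real → B.Dividing) ∧
    ProperSubscheme A.real A'.real) ∧ ¬ RohlinConjecture :=
  counter_of_octics Octic.O15.star Octic.O13.star

end Pool.Agent.Results.MP_dec4ff_ag.TypeOneNotMaximal
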